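import Pool.Agent.H3.HG.Targets

/-!
Row WAR of board hg (MP_b7ea10_al): the weak Artin-Rees property.
-/

namespace Pool.Agent.H82.HG

open Pool.Agent.H3.HG

section mods

variable {Q : Type} [Group Q]

/-- The group element as an element of the integral group ring. -/
noncomputable abbrev sg (q : Q) : MonoidAlgebra ℤ Q := MonoidAlgebra.single q 1

lemma sg_mul_smul {M : Type} [AddCommGroup M] [Module (MonoidAlgebra ℤ Q) M] (a b : Q) (m : M) :
    sg (a * b) • m = sg a • sg b • m := by
  rw [← mul_smul]
  congr 1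
  simp [sg, MonoidAlgebra.single_mul_single]

lemma sg_one_smul {M : Type} [AddCommGroup M] [Module (MonoidAlgebra ℤ Q) M] (m : M) :
    sg (1 : Q) • m = m := by
  have : sg (1 : Q) = 1 := rfl
  rw [this, one_smul]

variable (Q) in
/-- Powers of the augmentation ideal applied to a module. -/
noncomputable def D (M : Type) [AddCommGroup M] [Module (MonoidAlgebra ℤ Q) M] :
    ℕ → Submodule (MonoidAlgebra ℤ Q) M
  | 0 => ⊤
  | n + 1 => Submodule.span _ {x | ∃ q : Q, ∃ m ∈ D M n, x = sg q • m - m}

lemma map_D {M M' : Type} [AddCommGroup M] [Module (MonoidAlgebra ℤ Q) M]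
    [AddCommGroup M'] [Module (MonoidAlgebra ℤ Q) M'] (f : M →ₗ[MonoidAlgebra ℤ Q] M') (k : ℕ) :
    ∀ m ∈ D Q M k, f m ∈ D Q M' k := by
  induction k with
  | zero => intro m _; exact Submodule.mem_top
  | succ k ih =>
    intro m hm
    have h : D Q M (k + 1) ≤ (D Q M' (k + 1)).comap f := by
      rw [D, Submodule.span_le]
      rintro x ⟨q, m, hm, rfl⟩
      show f (sg q • m - m) ∈ D Q M' (k + 1)
      rw [map_sub, map_smul]
      exact Submodule.subset_span ⟨q, f m, ih m hm, rfl⟩
    exact h hm

lemma D_add {M : Type} [AddCommGroup M] [Module (MonoidAlgebra ℤ Q) M]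
    (N : Submodule (MonoidAlgebra ℤ Q) M) (l : ℕ) (h : D Q M l ≤ N) (k : ℕ) :
    D Q M (k + l) ≤ (D Q N k).map N.subtype := by
  induction k with
  | zero =>
    intro m hm
    rw [zero_add] at hm
    exact ⟨⟨m, h hm⟩, Submodule.mem_top, rfl⟩
  | succ k ih =>
    have e : k + 1 + l = (k + l) + 1 := by omega
    rw [e, D, Submodule.span_le]
    rintro x ⟨q, m, hm, rfl⟩
    obtain ⟨n, hn, rfl⟩ := ih hm
    refine ⟨sg q • n - n, Submodule.subset_span ⟨q, n, hn, rfl⟩, ?_⟩
    simp

/-- The endomorphism `m ↦ x m - m`. -/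
noncomputable def em {M : Type} [AddCommGroup M] [Module (MonoidAlgebra ℤ Q) M] (x : Q)
    (hx : ∀ (q : Q) (m : M), sg x • sg q • m = sg q • sg x • m) :
    M →ₗ[MonoidAlgebra ℤ Q] M :=
  MonoidAlgebra.equivariantOfLinearOfComm
    ((AddMonoidHom.mk' (fun m : M => sg x • m - m)
      (by intro a b; simp only [smul_add]; abel)).toIntLinearMap)
    (by
      intro q m
      show sg x • (sg q • m) - sg q • m = sg q • (sg x • m - m)
      rw [hx, smul_sub])

lemma em_apply {M : Type} [AddCommGroup M] [Module (MonoidAlgebra ℤ Q) M] (x : Q)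
    (hx : ∀ (q : Q) (m : M), sg x • sg q • m = sg q • sg x • m) (m : M) :
    em x hx m = sg x • m - m := rfl

/-- The triviality of `T` on `M`. -/
def Tr (T : Subgroup Q) (M : Type) [AddCommGroup M] [Module (MonoidAlgebra ℤ Q) M] : Prop :=
  ∀ t ∈ T, ∀ m : M, sg t • m = m

/-- A trivial essential submodule. -/
def Ess {M : Type} [AddCommGroup M] [Module (MonoidAlgebra ℤ Q) M]
    (B : Submodule (MonoidAlgebra ℤ Q) M) : Prop :=
  (∀ q : Q, ∀ b ∈ B, sg q • b = b) ∧
    ∀ N : Submodule (MonoidAlgebra ℤ Q) M, N ⊓ B = ⊥ → N = ⊥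

lemma ess_sub {M : Type} [AddCommGroup M] [Module (MonoidAlgebra ℤ Q) M]
    {B : Submodule (MonoidAlgebra ℤ Q) M} (h : Ess B) (N : Submodule (MonoidAlgebra ℤ Q) M) :
    Ess (B.comap N.subtype) := by
  refine ⟨?_, ?_⟩
  · intro q b hb
    apply Subtype.ext
    exact h.1 q b hb
  · intro P hP
    have h1 : P.map N.subtype ⊓ B = ⊥ := by
      rw [eq_bot_iff]
      rintro x ⟨⟨y, hy, rfl⟩, hx⟩
      have : y ∈ P ⊓ B.comap N.subtype := ⟨hy, hx⟩
      rw [hP, Submodule.mem_bot] at this
      rw [this]
      simp
    have h2 := h.2 _ h1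
    rw [eq_bot_iff]
    intro y hy
    have h3 : N.subtype y ∈ P.map N.subtype := ⟨y, hy, rfl⟩
    rw [h2, Submodule.mem_bot] at h3
    rw [Submodule.mem_bot]
    exact Subtype.ext h3

lemma step (T : Subgroup Q) (x : Q)
    (hx : ∀ q : Q, x * q * x⁻¹ * q⁻¹ ∈ T)
    (IH : ∀ (M : Type) [AddCommGroup M] [Module (MonoidAlgebra ℤ Q) M]
      [IsNoetherian (MonoidAlgebra ℤ Q) M] (B : Submodule (MonoidAlgebra ℤ Q) M),
      Tr T M → (∀ m : M, sg x • m = m) → Ess B → ∃ k, D Q M k = ⊥) (j : ℕ) :
    ∀ (M : Type) [AddCommGroup M] [Module (MonoidAlgebra ℤ Q) M]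
      [IsNoetherian (MonoidAlgebra ℤ Q) M] (B : Submodule (MonoidAlgebra ℤ Q) M),
      Tr T M → (∀ m : M, (fun a : M => sg x • a - a)^[j] m = 0) → Ess B →
      ∃ k, D Q M k = ⊥ := by
  induction j with
  | zero =>
    intro M _ _ _ B hT hj hB
    refine ⟨0, ?_⟩
    rw [eq_bot_iff]
    intro m _
    exact hj m
  | succ j ih =>
    intro M _ _ _ B hT hj hB
    have hc : ∀ (q : Q) (m : M), sg x • sg q • m = sg q • sg x • m := by
      intro q m
      rw [← sg_mul_smul, ← sg_mul_smul]
      have e : x * q = (x * q * x⁻¹ * q⁻¹) * (q * x) := by group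
      rw [e, sg_mul_smul, hT _ (hx q)]
    set e := em x hc with he
    have hA1 : ∃ k, D Q (LinearMap.ker e) k = ⊥ := by
      refine IH (LinearMap.ker e) (B.comap (LinearMap.ker e).subtype) ?_ ?_ (ess_sub hB _)
      · intro t ht m
        exact Subtype.ext (hT t ht m)
      · intro m
        apply Subtype.ext
        have h1 : e (m : M) = 0 := m.2
        have h2 : e (m : M) = sg x • (m : M) - (m : M) := rfl
        rw [h2] at h1
        exact sub_eq_zero.1 h1
    have hA2 : ∃ k, D Q (LinearMap.range e) k = ⊥ := by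
      refine ih (LinearMap.range e) (B.comap (LinearMap.range e).subtype) ?_ ?_ (ess_sub hB _)
      · intro t ht m
        exact Subtype.ext (hT t ht m)
      · rintro ⟨m, a, rfl⟩
        apply Subtype.ext
        have h1 : ∀ (i : ℕ) (y : LinearMap.range e),
            (((fun a : LinearMap.range e => sg x • a - a)^[i] y : LinearMap.range e) : M)
              = (fun a : M => sg x • a - a)^[i] (y : M) := by
          intro i
          induction i with
          | zero => intro y; rfl
          | succ i hi =>
            intro y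
            rw [Function.iterate_succ_apply, Function.iterate_succ_apply, hi]
            rfl
        rw [h1]
        have h2 := hj a
        rw [Function.iterate_succ_apply] at h2
        exact h2
    obtain ⟨k1, hk1⟩ := hA1
    obtain ⟨k2, hk2⟩ := hA2
    refine ⟨k1 + k2, ?_⟩
    have h3 : D Q M k2 ≤ LinearMap.ker e := by
      intro m hm
      have h4 := map_D e.rangeRestrict k2 m hm
      rw [hk2, Submodule.mem_bot] at h4
      have h5 := congrArg Subtype.val h4
      exact h5
    have h6 := D_add (LinearMap.ker e) k2 h3 k1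
    rw [hk1, Submodule.map_bot] at h6
    exact eq_bot_iff.2 h6

lemma exists_central [Group.IsNilpotent Q] (T : Subgroup Q) (hT : T ≠ ⊤) :
    ∃ x : Q, x ∉ T ∧ ∀ q : Q, x * q * x⁻¹ * q⁻¹ ∈ T := by
  classical
  obtain ⟨n, hn⟩ := Group.IsNilpotent.nilpotent (G := Q)
  have hex : ∃ n, ¬ Subgroup.upperCentralSeries Q n ≤ T := by
    refine ⟨n, ?_⟩
    rw [hn]
    intro h
    exact hT (top_le_iff.1 h)
  have h1 := Nat.find_spec hex
  have h2 := fun m => Nat.find_min hex (m := m)
  generalize Nat.find hex = N at h1 h2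
  cases N with
  | zero =>
    exfalso
    apply h1
    simp
  | succ N =>
    have h3 := h2 N (Nat.lt_succ_self N)
    rw [not_not] at h3
    obtain ⟨x, hx, hxT⟩ := Set.not_subset.1 h1
    refine ⟨x, hxT, fun q => h3 ?_⟩
    exact (Subgroup.mem_upperCentralSeries_succ_iff).1 hx q

lemma wf_of_fg (h : ∀ K : Subgroup Q, K.FG) : WellFoundedGT (Subgroup Q) := by
  rw [wellFoundedGT_iff_monotone_chain_condition]
  intro a
  obtain ⟨F, hF⟩ := h (⨆ n, a n)
  have hdir : Directed (· ≤ ·) (fun n => a n) := a.monotone.directed_le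
  have h1 : ∀ x ∈ F, ∃ n, x ∈ a n := by
    intro x hx
    have : x ∈ ⨆ n, a n := by
      rw [← hF]
      exact Subgroup.subset_closure hx
    exact (Subgroup.mem_iSup_of_directed hdir).1 this
  choose! g hg using h1
  refine ⟨F.sup g, fun m hm => le_antisymm (a.monotone hm) ?_⟩
  refine le_trans (le_iSup (fun n => a n) m) ?_
  rw [← hF, Subgroup.closure_le]
  intro x hx
  exact a.monotone (Finset.le_sup (f := g) hx) (hg x hx)

lemma main_step [Group.IsNilpotent Q] (hfg : ∀ K : Subgroup Q, K.FG) (T : Subgroup Q) :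
    T.Normal → ∀ (M : Type) [AddCommGroup M] [Module (MonoidAlgebra ℤ Q) M]
      [IsNoetherian (MonoidAlgebra ℤ Q) M] (B : Submodule (MonoidAlgebra ℤ Q) M),
      Tr T M → Ess B → ∃ k, D Q M k = ⊥ := by
  have := wf_of_fg hfg
  induction T using WellFoundedGT.induction with
  | ind T ih =>
    intro hN M _ _ _ B hT hB
    by_cases htop : T = ⊤
    · refine ⟨1, ?_⟩
      rw [D, eq_bot_iff, Submodule.span_le]
      rintro x ⟨q, m, _, rfl⟩
      have := hT q (by rw [htop]; exact Subgroup.mem_top q) m
      simp [this]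
    · obtain ⟨x, hxT, hx⟩ := exists_central T htop
      -- the case of trivial action of `x`
      have IH : ∀ (M : Type) [AddCommGroup M] [Module (MonoidAlgebra ℤ Q) M]
          [IsNoetherian (MonoidAlgebra ℤ Q) M] (B : Submodule (MonoidAlgebra ℤ Q) M),
          Tr T M → (∀ m : M, sg x • m = m) → Ess B → ∃ k, D Q M k = ⊥ := by
        intro M _ _ _ B hT hxM hB
        -- the subgroup acting trivially and central modulo T
        let T' : Subgroup Q := T ⊔ Subgroup.zpowers x
        have hlt : T < T' := by
          refine lt_of_le_of_ne le_sup_left ?_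
          intro h
          apply hxT
          rw [h]
          exact Subgroup.mem_sup_right (Subgroup.mem_zpowers x)
        have hnorm : T'.Normal := by
          have hle : T' ≤ (⊤ : Subgroup Q) := le_top
          constructor
          intro n hn g
          have hcl : T' = Subgroup.closure ((T : Set Q) ∪ {x}) := by
            rw [Subgroup.closure_union, Subgroup.closure_eq, ← Subgroup.zpowers_eq_closure]
          have hle2 : T' ≤ T'.comap (MulAut.conj g).toMonoidHom := by
            rw [hcl, Subgroup.closure_le, ← hcl]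
            rintro y (hy | hy)
            · show g * y * g⁻¹ ∈ T'
              exact Subgroup.mem_sup_left (hN.conj_mem y hy g)
            · have hy' : y = x := hy
              subst hy'
              show g * y * g⁻¹ ∈ T'
              have h1 : (y * g⁻¹ * y⁻¹ * (g⁻¹)⁻¹) ∈ T := hx g⁻¹
              have h2 : g * (y * g⁻¹ * y⁻¹ * (g⁻¹)⁻¹) * g⁻¹ ∈ T := hN.conj_mem _ h1 g
              have h3 : g * y * g⁻¹ = (g * (y * g⁻¹ * y⁻¹ * (g⁻¹)⁻¹) * g⁻¹) * y := by group
              rw [h3]
              exact T'.mul_mem (Subgroup.mem_sup_left h2)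
                (Subgroup.mem_sup_right (Subgroup.mem_zpowers y))
          exact hle2 hn
        refine ih T' hlt hnorm M B ?_ hB
        have hle3 : T' ≤ { carrier := {t : Q | ∀ m : M, sg t • m = m}
                           mul_mem' := by
                            intro a b ha hb m
                            rw [sg_mul_smul, hb, ha]
                           one_mem' := by
                            intro m
                            exact sg_one_smul m
                           inv_mem' := by
                            intro a ha m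
                            have h1 := ha (sg a⁻¹ • m)
                            rw [← sg_mul_smul, mul_inv_cancel, sg_one_smul] at h1
                            exact h1.symm : Subgroup Q } := by
          refine sup_le ?_ ?_
          · intro t ht m
            exact hT t ht m
          · rw [Subgroup.zpowers_le]
            exact hxM
        intro t ht m
        exact hle3 ht m
      have hc : ∀ (q : Q) (m : M), sg x • sg q • m = sg q • sg x • m := by
        intro q m
        rw [← sg_mul_smul, ← sg_mul_smul]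
        have e : x * q = (x * q * x⁻¹ * q⁻¹) * (q * x) := by group
        rw [e, sg_mul_smul, hT _ (hx q)]
      have hev := (Module.End.eventually_disjoint_ker_pow_range_pow
        (em x hc : Module.End (MonoidAlgebra ℤ Q) M)).and (Filter.eventually_ge_atTop 1)
      obtain ⟨j, hj, hj1⟩ := hev.exists
      have h1 : B ≤ LinearMap.ker ((em x hc : Module.End (MonoidAlgebra ℤ Q) M) ^ j) := by
        intro b hb
        obtain ⟨i, rfl⟩ : ∃ i, j = i + 1 := ⟨j - 1, by omega⟩
        rw [LinearMap.mem_ker, pow_succ, Module.End.mul_apply, em_apply, hB.1 x b hb, sub_self,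
          map_zero]
      have h2 : LinearMap.range ((em x hc : Module.End (MonoidAlgebra ℤ Q) M) ^ j) = ⊥ := by
        apply hB.2
        rw [eq_bot_iff]
        rintro y ⟨hy1, hy2⟩
        exact hj.le_bot ⟨h1 hy2, hy1⟩
      refine step T x hx IH j M B hT ?_ hB
      intro m
      have h3 : ∀ (i : ℕ) (m : M), (fun a : M => sg x • a - a)^[i] m
          = ((em x hc : Module.End (MonoidAlgebra ℤ Q) M) ^ i) m := by
        intro i
        induction i with
        | zero => intro m; rfl
        | succ i hi =>
          intro m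
          rw [Function.iterate_succ_apply, hi, pow_succ]
          rfl
      rw [h3]
      have h4 : ((em x hc : Module.End (MonoidAlgebra ℤ Q) M) ^ j) m ∈
          LinearMap.range ((em x hc : Module.End (MonoidAlgebra ℤ Q) M) ^ j) := ⟨m, rfl⟩
      rw [h2] at h4
      exact h4

lemma final [Group.IsNilpotent Q] (hfg : ∀ K : Subgroup Q, K.FG)
    (M : Type) [AddCommGroup M] [Module (MonoidAlgebra ℤ Q) M]
    [IsNoetherian (MonoidAlgebra ℤ Q) M] (B : Submodule (MonoidAlgebra ℤ Q) M)
    (hB : ∀ q : Q, ∀ b ∈ B, sg q • b = b) :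
    ∃ k, D Q M k ⊓ B = ⊥ := by
  have hwf : WellFoundedGT (Submodule (MonoidAlgebra ℤ Q) M) := inferInstance
  obtain ⟨C, hC, hmax⟩ := hwf.wf.has_min
    {C : Submodule (MonoidAlgebra ℤ Q) M | C ⊓ B = ⊥} ⟨⊥, bot_inf_eq _⟩
  have hC' : C ⊓ B = ⊥ := hC
  have hess : Ess (B.map C.mkQ) := by
    refine ⟨?_, ?_⟩
    · rintro q _ ⟨b, hb, rfl⟩
      rw [← map_smul, hB q b hb]
    · intro N hN
      by_contra hne
      apply hmax (N.comap C.mkQ)
      · show N.comap C.mkQ ⊓ B = ⊥
        rw [eq_bot_iff]
        rintro b ⟨hb1, hb2⟩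
        have h1 : C.mkQ b ∈ N ⊓ B.map C.mkQ := ⟨hb1, b, hb2, rfl⟩
        rw [hN, Submodule.mem_bot] at h1
        have h2 : b ∈ C := (Submodule.Quotient.mk_eq_zero C).1 h1
        have h3 : b ∈ C ⊓ B := ⟨h2, hb2⟩
        rw [hC'] at h3
        exact h3
      · show C < N.comap C.mkQ
        refine lt_of_le_of_ne ?_ ?_
        · intro c hc
          show C.mkQ c ∈ N
          have : C.mkQ c = 0 := (Submodule.Quotient.mk_eq_zero C).2 hc
          rw [this]
          exact N.zero_mem
        · intro h
          apply hne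
          rw [eq_bot_iff]
          intro y hy
          obtain ⟨m, rfl⟩ := C.mkQ_surjective y
          have h1 : m ∈ N.comap C.mkQ := hy
          rw [← h] at h1
          exact (Submodule.Quotient.mk_eq_zero C).2 h1
  obtain ⟨k, hk⟩ := main_step hfg ⊥ inferInstance (M ⧸ C) (B.map C.mkQ) (by
    intro t ht m
    rw [Subgroup.mem_bot.1 ht]
    exact sg_one_smul m) hess
  refine ⟨k, ?_⟩
  rw [eq_bot_iff]
  rintro b ⟨hb1, hb2⟩
  have h1 := map_D C.mkQ k b hb1
  rw [hk, Submodule.mem_bot] at h1
  have h2 : b ∈ C := (Submodule.Quotient.mk_eq_zero C).1 h1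
  have h3 : b ∈ C ⊓ B := ⟨h2, hb2⟩
  rw [hC'] at h3
  exact h3

end mods

theorem pf_WAR : T_WAR := by
  intro Q A _ _ _ _ hfg hmax B hB
  letI : Module (MonoidAlgebra ℤ Q) A := Module.compHom A
    ((MonoidAlgebra.lift ℤ (AddMonoid.End A) Q (DistribMulAction.toAddMonoidEnd Q A)).toRingHom)
  have hsg : ∀ (q : Q) (a : A), sg q • a = q • a := by
    intro q a
    show (MonoidAlgebra.lift ℤ (AddMonoid.End A) Q (DistribMulAction.toAddMonoidEnd Q A))
      (MonoidAlgebra.single q 1) a = q • a
    rw [MonoidAlgebra.lift_single, one_smul]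
    rfl
  have hnoeth : IsNoetherian (MonoidAlgebra ℤ Q) A := by
    rw [← monotone_stabilizes_iff_noetherian]
    intro f
    obtain ⟨n, hn⟩ := hmax (fun i => (f i).toAddSubgroup)
      (fun i j hij x hx => f.monotone hij hx) (fun _ => le_top) (by
        intro i q _ m hm
        rw [← hsg]
        exact (f i).smul_mem _ hm)
    refine ⟨n, fun m hm => ?_⟩
    have h1 := hn m hm
    apply SetLike.coe_injective
    have h2 := congrArg (fun S : AddSubgroup A => (S : Set A)) h1
    exact h2.symm
  -- the submodule generated by B is B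
  let B' : Submodule (MonoidAlgebra ℤ Q) A := {
    carrier := B
    add_mem' := fun ha hb => B.add_mem ha hb
    zero_mem' := B.zero_mem
    smul_mem' := by
      intro c x hx
      induction c using MonoidAlgebra.induction_linear with
      | zero =>
        rw [zero_smul]
        exact B.zero_mem
      | add f g hf hg =>
        rw [add_smul]
        exact B.add_mem hf hg
      | single q n =>
        have e : (MonoidAlgebra.single q n : MonoidAlgebra ℤ Q) = n • sg q := by
          simp [sg]
        rw [e, smul_assoc, hsg, hB q x hx]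
        exact B.zsmul_mem hx n }
  obtain ⟨k, hk⟩ := final hfg A B' (by
    intro q b hb
    rw [hsg]
    exact hB q b hb)
  refine ⟨k, fun b hb hbk => ?_⟩
  have hle : ∀ i, ∀ a ∈ DD Q A i, a ∈ D Q A i := by
    intro i
    induction i with
    | zero => intro a _; exact Submodule.mem_top
    | succ i ih =>
      intro a ha
      have h1 : DD Q A (i + 1) ≤ (D Q A (i + 1)).toAddSubgroup := by
        rw [DD, AddSubgroup.closure_le]
        rintro x ⟨q, m, hm, rfl⟩
        show q • m - m ∈ D Q A (i + 1)
        rw [← hsg]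
        exact Submodule.subset_span ⟨q, m, ih m hm, rfl⟩
      exact h1 ha
  have h1 : b ∈ D Q A k ⊓ B' := ⟨hle k b hbk, hb⟩
  rw [hk] at h1
  exact h1

end Pool.Agent.H82.HG
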